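import Mathlib
import Pool.Agent.V11180.Scale

/-!
# MP_697cf1_co: both proposed density thresholds for `mB + ℓB` fail, for all `m > ℓ ≥ 1`

With `k = m/ℓ`, there are sets `A`, `A'` of positive integers of upper densities larger than
`(k+1)/(k+2)` and `1 - 1/(ℓ(k+1)(k+2))` such that no infinite `B` satisfies `mB + ℓB + t ⊆ A` for
any `t`, and no infinite `B` satisfies `mB + ℓB ⊆ A'`.
-/

set_option autoImplicit false

open Finset Filter

namespace Pool.Agent.Results.MP_697cf1_co.BothThresholdsFail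

/-- the natural upper density of a set of positive integers -/
noncomputable def upperDensity (A : Set ℕ) : ℝ :=
  limsup (fun N : ℕ => ((A ∩ Set.Icc 1 N).ncard : ℝ) / N) atTop

/-- `mB + ℓB + t` -/
def sums (m ℓ : ℕ) (B : Set ℕ) (t : ℕ) : Set ℕ :=
  {x | ∃ b₁ ∈ B, ∃ b₂ ∈ B, x = m * b₁ + ℓ * b₂ + t}

open Pool.Agent.V11180.Scale

lemma pow_le_U {m l : ℕ} (hl : 1 ≤ l) (hm : l < m) (J : ℕ) : 2 ^ J ≤ U m l J 0 := by
  refine le_trans ?_ (T_le_U hl hm J)
  induction J with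
  | zero =>
    rw [T]
    omega
  | succ J ih =>
    have h1 := T_le_U hl hm J
    have h2 := U_lt_T (m := m) hl (J := J)
    have h3 : 2 * (U m l J 0 + J) ≤ (m + l) * (U m l J 0 + J) :=
      Nat.mul_le_mul_right _ (by omega)
    rw [pow_succ]
    omega

lemma density_bound {m l : ℕ} (hl : 1 ≤ l) (hm : l < m) {d : ℕ} (hd : d ∣ m + l) :
    1 - (((l : ℝ) / (m + l)) / (1 + (l : ℝ) / (m + l))) / d <
      upperDensity {n | 0 < n ∧ (¬ d ∣ n ∨ n ∈ A m l)} := by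
  classical
  have hd0 : 0 < d := Nat.pos_of_dvd_of_pos hd (by omega)
  have hd0' : (0 : ℝ) < d := by exact_mod_cast hd0
  have hm0 : (0 : ℝ) < m := by exact_mod_cast (show 0 < m by omega)
  have hl0 : (0 : ℝ) < l := by exact_mod_cast (show 0 < l by omega)
  set ρ : ℝ := (l : ℝ) / (m + l) with hρ
  set κ : ℝ := ((m : ℝ) + 1) / m with hκ
  have hρ0 : 0 < ρ := by positivity
  have hρ1 : ρ < 1 := by
    rw [hρ, div_lt_one (by positivity)]
    linarith
  have hκ1 : 1 < κ := by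
    rw [hκ, one_lt_div hm0]
    linarith
  set A' : Set ℕ := {n | 0 < n ∧ (¬ d ∣ n ∨ n ∈ A m l)} with hA'
  -- the bound at the top of scale `J`
  have key : ∀ J : ℕ, 1 - (ρ - κ * ρ ^ 2 * (1 - ρ ^ (2 * J)) / (1 + ρ)) / d -
      ((J : ℝ) + 1) * J / 2 ^ J ≤ ((A' ∩ Set.Icc 1 (U m l J 0)).ncard : ℝ) / (U m l J 0 : ℕ) := by
    intro J
    set N := U m l J 0 with hN
    have hNp : 2 ^ J ≤ N := pow_le_U hl hm J
    have hN0 : (0 : ℝ) < N := by
      have : 0 < 2 ^ J := by positivity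
      exact_mod_cast (show 0 < N by omega)
    have h1 : A' ∩ Set.Icc 1 N = ↑((Finset.Icc 1 N).filter (fun n => ¬ (d ∣ n ∧ n ∉ A m l))) := by
      ext n
      simp only [hA', Set.mem_inter_iff, Set.mem_ofPred_eq, Set.mem_Icc, coe_filter, mem_Icc]
      constructor
      · rintro ⟨⟨-, h2⟩, h3⟩
        refine ⟨h3, ?_⟩
        rintro ⟨h4, h5⟩
        rcases h2 with h2 | h2
        · exact h2 h4
        · exact h5 h2
      · rintro ⟨h2, h3⟩
        refine ⟨⟨by omega, ?_⟩, h2⟩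
        by_contra hcon
        push Not at hcon
        exact h3 hcon
    rw [h1, Set.ncard_coe_finset]
    have h2 := card_filter_add_card_filter_not (s := Finset.Icc 1 N)
      (fun n => d ∣ n ∧ n ∉ A m l)
    rw [Nat.card_Icc, Nat.add_sub_cancel] at h2
    have h3 := gap_card hl hm hd J
    rw [← hN] at h3
    have h4 := gap_total hl hm J
    rw [← hρ, ← hκ, ← hN] at h4
    set bad := ((Finset.Icc 1 N).filter (fun n => d ∣ n ∧ n ∉ A m l)).card with hbad
    set good := ((Finset.Icc 1 N).filter (fun n => ¬ (d ∣ n ∧ n ∉ A m l))).card with hgood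
    have h5 : (bad : ℝ) + good = N := by exact_mod_cast h2
    have h6 : (d : ℝ) * bad + ∑ i ∈ range J, (U m l J (i + 1) : ℝ) ≤
        L m l J J + ∑ i ∈ range J, (L m l J i : ℝ) + d * ((J + 1) * J) := by exact_mod_cast h3
    set X : ℝ := ρ - κ * ρ ^ 2 * (1 - ρ ^ (2 * J)) / (1 + ρ) with hX
    have h7 : (bad : ℝ) ≤ N * X / d + (J + 1) * J := by
      rw [← sub_le_iff_le_add, le_div_iff₀ hd0']
      nlinarith
    have h8 : (J + 1 : ℝ) * J ≤ N * (((J : ℝ) + 1) * J / 2 ^ J) := by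
      have h9 : (2 : ℝ) ^ J ≤ N := by exact_mod_cast hNp
      have h10 : (0 : ℝ) ≤ ((J : ℝ) + 1) * J / 2 ^ J := by positivity
      calc (J + 1 : ℝ) * J = 2 ^ J * (((J : ℝ) + 1) * J / 2 ^ J) := by field_simp
        _ ≤ _ := mul_le_mul_of_nonneg_right h9 h10
    rw [le_div_iff₀ hN0]
    have h11 : (1 - X / d - ((J : ℝ) + 1) * J / 2 ^ J) * N =
        N - N * X / d - N * (((J : ℝ) + 1) * J / 2 ^ J) := by ring
    rw [h11]
    linarith
  -- the limit of the bound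
  have hlim : Tendsto (fun J : ℕ => 1 - (ρ - κ * ρ ^ 2 * (1 - ρ ^ (2 * J)) / (1 + ρ)) / d -
      ((J : ℝ) + 1) * J / 2 ^ J) atTop
      (nhds (1 - (ρ - κ * ρ ^ 2 * (1 - 0) / (1 + ρ)) / d - 0)) := by
    have h1 : Tendsto (fun J : ℕ => ρ ^ (2 * J)) atTop (nhds 0) := by
      have h2 : Tendsto (fun J : ℕ => (ρ ^ 2) ^ J) atTop (nhds 0) :=
        tendsto_pow_atTop_nhds_zero_of_lt_one (by positivity) (by nlinarith)
      simpa [pow_mul] using h2
    have h2 : Tendsto (fun J : ℕ => ((J : ℝ) + 1) * J / 2 ^ J) atTop (nhds 0) := by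
      have h3 := tendsto_pow_const_div_const_pow_of_one_lt 2 (show (1 : ℝ) < 2 by norm_num)
      have h4 := tendsto_pow_const_div_const_pow_of_one_lt 1 (show (1 : ℝ) < 2 by norm_num)
      have h5 := h3.add h4
      rw [add_zero] at h5
      refine h5.congr (fun J => ?_)
      ring
    exact ((tendsto_const_nhds.sub ((tendsto_const_nhds.sub (((tendsto_const_nhds.sub h1).const_mul
      (κ * ρ ^ 2)).div_const (1 + ρ))).div_const (d : ℝ))).sub h2)
  have hlt : 1 - ρ / (1 + ρ) / d < 1 - (ρ - κ * ρ ^ 2 * (1 - 0) / (1 + ρ)) / d - 0 := by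
    have h1 : ρ - κ * ρ ^ 2 * (1 - 0) / (1 + ρ) < ρ / (1 + ρ) := by
      rw [sub_lt_iff_lt_add, ← add_div, lt_div_iff₀ (by positivity)]
      nlinarith [mul_pos (sub_pos.2 hκ1) (pow_pos hρ0 2)]
    have h2 := (div_lt_div_iff_of_pos_right hd0').2 h1
    linarith
  obtain ⟨c, hc1, hc2⟩ := exists_between hlt
  refine lt_of_lt_of_le hc1 ?_
  have hev := (hlim.eventually (lt_mem_nhds hc2))
  rw [eventually_atTop] at hev
  obtain ⟨J₀, hJ₀⟩ := hev
  have hfreq : ∃ᶠ N : ℕ in atTop, c ≤ ((A' ∩ Set.Icc 1 N).ncard : ℝ) / N := by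
    rw [frequently_atTop]
    intro N
    refine ⟨U m l (max J₀ N) 0, ?_, ?_⟩
    · have h1 := pow_le_U hl hm (max J₀ N)
      have h2 : max J₀ N < 2 ^ (max J₀ N) := Nat.lt_two_pow_self
      have h3 := le_max_right J₀ N
      omega
    · exact (hJ₀ _ (le_max_left J₀ N)).le.trans (key _)
  refine le_limsup_of_frequently_le hfreq ?_
  refine ⟨1, ?_⟩
  rw [eventually_map, eventually_atTop]
  refine ⟨1, fun N hN => ?_⟩
  have hN0 : (0 : ℝ) < N := by exact_mod_cast hN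
  show ((A' ∩ Set.Icc 1 N).ncard : ℝ) / N ≤ 1
  rw [div_le_one hN0]
  have h1 : (A' ∩ Set.Icc 1 N).ncard ≤ (Set.Icc 1 N).ncard :=
    Set.ncard_le_ncard Set.inter_subset_right (Set.finite_Icc 1 N)
  rw [← Finset.coe_Icc, Set.ncard_coe_finset, Nat.card_Icc, Nat.add_sub_cancel] at h1
  exact_mod_cast h1

/-- no infinite set has all its sums in `A` -/
lemma no_sums {m l : ℕ} (hl : 1 ≤ l) (hm : l < m) (t : ℕ) {B : Set ℕ} (hB : B.Infinite)
    (h : ∀ b₁ ∈ B, ∀ b₂ ∈ B, m * b₁ + l * b₂ + t ∈ A m l) : False := by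
  obtain ⟨b, hb⟩ := hB.nonempty
  obtain ⟨y, hy, hby⟩ := hB.exists_gt (U m l (m * b + l * b + t + b) 0)
  exact avoid hl hm b t hby (h b hb y hy) (h y hy b hb) (h y hy y hy)

/-- **Both thresholds fail for all `m > ℓ ≥ 1`.** -/
theorem result (m ℓ : ℕ) (hℓ : 1 ≤ ℓ) (hm : ℓ < m) :
    (∃ A : Set ℕ, (∀ a ∈ A, 0 < a) ∧
      ((m : ℝ) / ℓ + 1) / ((m : ℝ) / ℓ + 2) < upperDensity A ∧
      ∀ B : Set ℕ, B.Infinite → ∀ t : ℕ, ¬ sums m ℓ B t ⊆ A) ∧
    (∃ A : Set ℕ, (∀ a ∈ A, 0 < a) ∧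
      1 - 1 / ((ℓ : ℝ) * ((m : ℝ) / ℓ + 1) * ((m : ℝ) / ℓ + 2)) < upperDensity A ∧
      ∀ B : Set ℕ, B.Infinite → ¬ sums m ℓ B 0 ⊆ A) := by
  have hm0 : (0 : ℝ) < m := by exact_mod_cast (show 0 < m by omega)
  have hl0 : (0 : ℝ) < ℓ := by exact_mod_cast (show 0 < ℓ by omega)
  constructor
  · refine ⟨{n | 0 < n ∧ (¬ 1 ∣ n ∨ n ∈ A m ℓ)}, fun a ha => ha.1, ?_, ?_⟩
    · refine lt_of_eq_of_lt ?_ (density_bound hℓ hm (one_dvd _))
      push_cast
      field_simp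
      ring
    · intro B hB t h
      apply no_sums hℓ hm t hB
      intro b₁ hb₁ b₂ hb₂
      have h1 := h ⟨b₁, hb₁, b₂, hb₂, rfl⟩
      exact h1.2.resolve_left (fun h2 => h2 (one_dvd _))
  · refine ⟨{n | 0 < n ∧ (¬ (m + ℓ) ∣ n ∨ n ∈ A m ℓ)}, fun a ha => ha.1, ?_, ?_⟩
    · refine lt_of_eq_of_lt ?_ (density_bound hℓ hm (dvd_refl _))
      push_cast
      field_simp
      ring
    · intro B hB h
      -- an infinite part of `B` in one residue class
      have hmaps : Set.MapsTo (fun b => b % (m + ℓ)) B (↑(range (m + ℓ)) : Set ℕ) := by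
        intro b _
        rw [mem_coe, mem_range]
        exact Nat.mod_lt _ (by omega)
      obtain ⟨r, -, hr⟩ : ∃ r ∈ (↑(range (m + ℓ)) : Set ℕ),
          (B ∩ (fun b => b % (m + ℓ)) ⁻¹' {r}).Infinite := by
        by_contra hcon
        push Not at hcon
        apply hB
        have h1 : B ⊆ ⋃ r ∈ (↑(range (m + ℓ)) : Set ℕ), B ∩ (fun b => b % (m + ℓ)) ⁻¹' {r} := by
          intro b hb
          rw [Set.mem_iUnion₂]
          exact ⟨b % (m + ℓ), hmaps hb, hb, rfl⟩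
        refine Set.Finite.subset (Set.Finite.biUnion (Finset.finite_toSet _) ?_) h1
        intro r hr
        exact hcon r hr
      apply no_sums hℓ hm 0 hr
      intro b₁ hb₁ b₂ hb₂
      have h1 := h ⟨b₁, hb₁.1, b₂, hb₂.1, rfl⟩
      refine h1.2.resolve_left (fun h2 => h2 ?_)
      have e1 : b₁ % (m + ℓ) = r := hb₁.2
      have e2 : b₂ % (m + ℓ) = r := hb₂.2
      have h3 : m * b₁ + ℓ * b₂ + 0 ≡ m * r + ℓ * r + 0 [MOD (m + ℓ)] := by
        apply Nat.ModEq.add_right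
        apply Nat.ModEq.add
        · apply Nat.ModEq.mul_left
          rw [Nat.ModEq, e1, ← e1, Nat.mod_mod]
        · apply Nat.ModEq.mul_left
          rw [Nat.ModEq, e2, ← e2, Nat.mod_mod]
      rw [(Nat.modEq_zero_iff_dvd).symm]
      refine h3.trans ?_
      rw [Nat.modEq_zero_iff_dvd]
      exact ⟨r, by ring⟩

end Pool.Agent.Results.MP_697cf1_co.BothThresholdsFail
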